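import Pool.Agent.Helper9.BS.St

/-!
# Project BS (MP_eb8260_an), module SH: the shift semigroup
-/

set_option autoImplicit false

open scoped NNReal
open Filter Topology

noncomputable section

namespace Pool.Agent.Helper51.BS

open Pool.Agent.Helper9.BS

section Gen

variable {X H : Type} [NormedAddCommGroup H] [InnerProductSpace ℂ H]

/-- the closed span of a family -/
abbrev Mc (e : X → H) : Submodule ℂ H := (Submodule.span ℂ (Set.range e)).topologicalClosure

lemma gmem (e : X → H) (x : X) : e x ∈ Mc e :=
  Submodule.le_topologicalClosure _ (Submodule.subset_span ⟨x, rfl⟩)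

lemma ind (e : X → H) (p : Mc e → Prop) (hcl : IsClosed {y | p y}) (h0 : p 0)
    (hadd : ∀ y z, p y → p z → p (y + z)) (hsmul : ∀ (c : ℂ) y, p y → p (c • y))
    (hgen : ∀ x, p ⟨e x, gmem e x⟩) : ∀ y, p y := by
  have hspan : ∀ z (hz : z ∈ Submodule.span ℂ (Set.range e)),
      p ⟨z, Submodule.le_topologicalClosure _ hz⟩ := by
    intro z hz
    induction hz using Submodule.span_induction with
    | mem x hx =>
      obtain ⟨a, rfl⟩ := hx
      exact hgen a
    | zero => exact h0
    | add x y hx hy h1 h2 => exact hadd _ _ h1 h2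
    | smul c x hx h1 => exact hsmul c _ h1
  intro y
  have hy : (y : H) ∈ closure (Submodule.span ℂ (Set.range e) : Set H) := by
    have := y.2
    rwa [← SetLike.mem_coe, Submodule.topologicalClosure_coe] at this
  obtain ⟨u, hu, hlim⟩ := mem_closure_iff_seq_limit.mp hy
  have hlim' : Tendsto (fun n => (⟨u n, Submodule.le_topologicalClosure _ (hu n)⟩ : Mc e)) atTop
      (𝓝 y) := by
    rw [tendsto_subtype_rng]
    exact hlim
  exact hcl.mem_of_tendsto hlim' (Eventually.of_forall fun n => hspan _ (hu n))

end Gen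

theorem hSH : StSH := by
  intro hEXT H _ _ _ ι ξ hG hC
  let e : ℝ≥0 × ι → H := fun p => ξ p.1 p.2
  have hL : ∀ r : ℝ≥0, ∃ L : Mc e →ₗᵢ[ℂ] H, ∀ x (hx : e x ∈ Mc e), L ⟨e x, hx⟩ =
      ξ (x.1 + r) x.2 := by
    intro r
    exact hEXT (ℝ≥0 × ι) H H e (fun x => ξ (x.1 + r) x.2)
      (fun x y => (hG r x.1 y.1 x.2 y.2).symm)
  choose L hL using hL
  have hLm : ∀ r (y : Mc e), L r y ∈ Mc e := by
    intro r
    apply ind e (fun y => L r y ∈ Mc e)
    · exact (Submodule.isClosed_topologicalClosure _).preimage (L r).continuous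
    · simp
    · intro y z hy hz
      rw [map_add]
      exact add_mem hy hz
    · intro c y hy
      rw [map_smul]
      exact Submodule.smul_mem _ c hy
    · intro x
      rw [hL]
      exact gmem e (x.1 + r, x.2)
  have hL0 : ∀ y : Mc e, L 0 y = y := by
    apply ind e (fun y => L 0 y = y)
    · exact isClosed_eq (L 0).continuous continuous_subtype_val
    · simp
    · intro y z hy hz
      rw [map_add, hy, hz]
      rfl
    · intro c y hy
      rw [map_smul, hy]
      rfl
    · intro x
      rw [hL, add_zero]
  have hLa : ∀ s t (y : Mc e), L (s + t) y = L s ⟨L t y, hLm t y⟩ := by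
    intro s t
    apply ind e (fun y => L (s + t) y = L s ⟨L t y, hLm t y⟩)
    · refine isClosed_eq (L _).continuous ((L s).continuous.comp ?_)
      exact (L t).continuous.subtype_mk _
    · have : (⟨L t 0, hLm t 0⟩ : Mc e) = 0 := by
        apply Subtype.ext
        simp
      rw [this]
      simp
    · intro y z hy hz
      have : (⟨L t (y + z), hLm t (y + z)⟩ : Mc e) = ⟨L t y, hLm t y⟩ + ⟨L t z, hLm t z⟩ := by
        apply Subtype.ext
        simp
      rw [this, map_add, map_add, hy, hz]
    · intro c y hy
      have : (⟨L t (c • y), hLm t (c • y)⟩ : Mc e) = c • ⟨L t y, hLm t y⟩ := by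
        apply Subtype.ext
        simp
      rw [this, map_smul, map_smul, hy]
    · intro x
      have h1 : (⟨L t ⟨e x, gmem e x⟩, hLm t _⟩ : Mc e) =
          ⟨e (x.1 + t, x.2), gmem e (x.1 + t, x.2)⟩ := by
        apply Subtype.ext
        exact hL t x _
      rw [hL, h1, hL]
      show ξ (x.1 + (s + t)) x.2 = ξ (x.1 + t + s) x.2
      rw [add_comm s t, add_assoc]
  have hLc : ∀ y : Mc e, Continuous fun t => L t y := by
    apply ind e (fun y => Continuous fun t => L t y)
    · apply IsSeqClosed.isClosed
      intro u y hu hy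
      have hU : TendstoUniformly (fun n t => L t (u n)) (fun t => L t y) atTop := by
        rw [Metric.tendstoUniformly_iff]
        intro ε hε
        have := Metric.tendsto_nhds.mp hy ε hε
        filter_upwards [this] with n hn t
        rw [dist_comm, (L t).isometry.dist_eq]
        exact hn
      exact hU.continuous (Frequently.of_forall fun n => hu n)
    · simpa using continuous_const
    · intro y z hy hz
      simp only [map_add]
      exact hy.add hz
    · intro c y hy
      simp only [map_smul]
      exact hy.const_smul c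
    · intro x
      have : (fun t => L t ⟨e x, gmem e x⟩) = fun t => ξ (x.1 + t) x.2 := by
        funext t
        exact hL t x _
      rw [this]
      exact (hC x.2).comp (continuous_const.add continuous_id)
  -- the projection
  let P : H →L[ℂ] Mc e := (Mc e).orthogonalProjectionOnto
  have hPo : ∀ x, x - (P x : H) ∈ (Mc e)ᗮ := fun x =>
    Submodule.sub_starProjection_mem_orthogonal (K := Mc e) x
  have hPm : ∀ (y : Mc e), P (y : H) = y := fun y =>
    Submodule.orthogonalProjectionOnto_mem_subspace_eq_self y
  have hPz : ∀ z ∈ (Mc e)ᗮ, P z = 0 := fun z hz =>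
    Submodule.orthogonalProjectionOnto_apply_of_mem_orthogonal hz
  have hnorm : ∀ (y : Mc e) (z : H), z ∈ (Mc e)ᗮ → ‖(y : H) + z‖ * ‖(y : H) + z‖ =
      ‖y‖ * ‖y‖ + ‖z‖ * ‖z‖ := by
    intro y z hz
    have := norm_add_sq_eq_norm_sq_add_norm_sq_of_inner_eq_zero (𝕜 := ℂ) (y : H) z
      (Submodule.inner_right_of_mem_orthogonal y.2 hz)
    simpa using this
  have hnV : ∀ t x, ‖L t (P x) + (x - (P x : H))‖ = ‖x‖ := by
    intro t x
    have h1 := hnorm ⟨L t (P x), hLm t _⟩ _ (hPo x)
    have h2 := hnorm (P x) _ (hPo x)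
    have h3 : ((P x : H)) + (x - (P x : H)) = x := by abel
    rw [h3] at h2
    have h4 : ‖(⟨L t (P x), hLm t _⟩ : Mc e)‖ = ‖P x‖ := (L t).norm_map _
    rw [h4, ← h2] at h1
    exact (mul_self_inj (norm_nonneg _) (norm_nonneg _)).mp h1
  have hPV : ∀ t x, P (L t (P x) + (x - (P x : H))) = ⟨L t (P x), hLm t _⟩ := by
    intro t x
    rw [map_add, hPz _ (hPo x), add_zero]
    exact hPm ⟨L t (P x), hLm t _⟩
  refine ⟨{ T := fun t x => L t (P x) + (x - (P x : H))
            map_add := ?_
            map_smul := ?_
            contr := fun t x => (hnV t x).le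
            zero := ?_
            add := ?_
            cont := ?_ }, hnV, ?_⟩
  · intro t x y
    simp only [map_add, Submodule.coe_add]
    abel
  · intro t c x
    simp only [map_smul, Submodule.coe_smul, smul_add, smul_sub]
  · intro x
    show L 0 (P x) + (x - (P x : H)) = x
    rw [hL0]
    abel
  · intro s t x
    show L (s + t) (P x) + (x - (P x : H)) = L s (P (L t (P x) + (x - (P x : H)))) +
      (L t (P x) + (x - (P x : H)) - (P (L t (P x) + (x - (P x : H))) : H))
    rw [hPV, hLa]
    simp
  · intro x
    exact (hLc (P x)).add continuous_const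
  · intro r s i
    show L r (P (ξ s i)) + (ξ s i - (P (ξ s i) : H)) = ξ (s + r) i
    have h1 : P (ξ s i) = ⟨e (s, i), gmem e (s, i)⟩ := hPm ⟨e (s, i), gmem e (s, i)⟩
    rw [h1, hL]
    show ξ (s + r) i + (ξ s i - ξ s i) = ξ (s + r) i
    simp

end Pool.Agent.Helper51.BS
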